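import Pool.Agent.K1H47.RA.Stm2
import Pool.Agent.K1H99.RC.Strict

set_option autoImplicit false

/-! `S_REV`: a map which reverses an orbit reverses its velocity (for helper47, project RA). -/

namespace Pool.Agent.K1H33.RA

open MvPolynomial Topology Filter Pool.Agent.H936R2 Pool.Agent.R847.Gap Pool.Agent.K1H69.MZ
open Pool.Agent.K1H47.RC Pool.Agent.K1H47.RA

lemma hasDeriv {L : Type} [NontriviallyNormedField L] [CompleteSpace L] [IsUltrametricDist L]
    {ι : Type} [Fintype ι] {r : ℝ} (hr0 : 0 ≤ r) (hr1 : r < 1) {C C' : ι → ℕ → L → L}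
    (hF : Fam r C C') (a : L) (i : ι) :
    HasDerivAt (fun t : L => ev C 0 (a * t) i) (a * evt C 0 0 i) 0 := by
  obtain ⟨D, hD, hS⟩ := Pool.Agent.K1H99.RC.t_STRICT L ι r hr0 hr1 C C' hF 0 0 (by simp) (by simp)
  have h1 : HasDerivAt (fun t : L => ((0 : L), a * t)) ((0 : L), a) 0 := by
    have h2 : HasDerivAt (fun t : L => a * t) a 0 := by
      simpa using (hasDerivAt_id (0 : L)).const_mul a
    exact (hasDerivAt_const (0 : L) (0 : L)).prodMk h2
  have h3 : HasFDerivAt (fun q : L × L => ev C q.1 q.2) D ((fun t : L => ((0 : L), a * t)) 0) := by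
    simpa using hS.hasFDerivAt
  have h4 := h3.comp_hasDerivAt (0 : L) h1
  rw [hD] at h4
  have h5 := hasDerivAt_pi.1 h4 i
  simpa using h5

/-- chain rule for polynomials -/
lemma deriv_eval {L : Type} [NontriviallyNormedField L] {ι : Type} [Fintype ι] [DecidableEq ι]
    (x : L → ι → L) (x' : ι → L) (t0 : L) (h : ∀ m, HasDerivAt (fun t => x t m) (x' m) t0)
    (q : MvPolynomial ι L) :
    HasDerivAt (fun t => eval (x t) q) (∑ m, eval (x t0) (pderiv m q) * x' m) t0 := by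
  induction q using MvPolynomial.induction_on with
  | C a =>
    simp only [eval_C, pderiv_C, map_zero, zero_mul, Finset.sum_const_zero]
    exact hasDerivAt_const t0 a
  | add p q hp hq =>
    have := hp.add hq
    simp only [map_add, add_mul, Finset.sum_add_distrib]
    exact this
  | mul_X q n hq =>
    have h1 := hq.mul (h n)
    have e : ∑ m, eval (x t0) (pderiv m (q * X n)) * x' m =
        (∑ m, eval (x t0) (pderiv m q) * x' m) * x t0 n + eval (x t0) q * x' n := by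
      have e1 : ∀ m, eval (x t0) (pderiv m (q * X n)) * x' m =
          eval (x t0) (pderiv m q) * x' m * x t0 n +
            (if m = n then eval (x t0) q * x' n else 0) := by
        intro m
        rw [pderiv_mul]
        by_cases hmn : m = n
        · subst hmn
          rw [pderiv_X_self, if_pos rfl]
          simp only [map_add, map_mul, eval_X, map_one]
          ring
        · rw [pderiv_X_of_ne (Ne.symm hmn), if_neg hmn]
          simp only [map_add, map_mul, eval_X, map_zero]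
          ring
      rw [Finset.sum_congr rfl fun m _ => e1 m, Finset.sum_add_distrib, Finset.sum_mul,
        Finset.sum_ite_eq' Finset.univ n]
      simp
    rw [e]
    have e2 : (fun t => eval (x t) (q * X n)) = fun t => eval (x t) q * x t n := by
      funext t
      simp
    rw [e2]
    exact h1

lemma lip1 {L : Type} [NontriviallyNormedField L] [CompleteSpace L] [IsUltrametricDist L]
    {ι : Type} {r : ℝ} (hr0 : 0 ≤ r) (hr1 : r < 1) {C C' : ι → ℕ → L → L}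
    (hF : Fam r C C') (s t : L) (hs : ‖s‖ ≤ 1) (ht : ‖t‖ ≤ 1) (i : ι) :
    ‖ev C 0 s i - ev C 0 t i‖ ≤ ‖s - t‖ := by
  have hgeo : Summable fun k : ℕ => r ^ k := summable_geometric_of_lt_one hr0 hr1
  have hsum : ∀ (t : L), ‖t‖ ≤ 1 → Summable fun k => C i k 0 * t ^ k := by
    intro t ht
    refine Summable.of_norm_bounded hgeo fun k => ?_
    rw [norm_mul]
    have h1 := (hF i k).1 0 (by simp)
    have h2 := Pool.Agent.K1H99.RC.norm_pow_le ht k
    have h3 : (0 : ℝ) ≤ r ^ k := pow_nonneg hr0 k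
    nlinarith [norm_nonneg (C i k 0), norm_nonneg (t ^ k)]
  have hS : HasSum (fun k => C i k 0 * s ^ k - C i k 0 * t ^ k) (ev C 0 s i - ev C 0 t i) :=
    (hsum s hs).hasSum.sub (hsum t ht).hasSum
  refine Pool.Agent.K1H99.RC.hasSum_norm_le hS (norm_nonneg _) fun k => ?_
  rw [← mul_sub, norm_mul]
  have h1 := (hF i k).1 0 (by simp)
  have h2 := Pool.Agent.K1H99.RC.norm_pow_sub_le hs ht k
  have h3 : r ^ k ≤ 1 := pow_le_one₀ hr0 hr1.le
  calc ‖C i k 0‖ * ‖s ^ k - t ^ k‖ ≤ 1 * ‖s - t‖ :=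
        mul_le_mul (h1.trans h3) h2 (norm_nonneg _) zero_le_one
    _ = ‖s - t‖ := one_mul _

theorem t_REV : S_REV := by
  intro L _ _ _ _ p _ hp ι _ _ A B Q F G hG z hz hzQ k C C' hF hw Ψ l hl hΨ0 hΨ i j
  have hp0 : (p : L) ≠ 0 := by
    exact_mod_cast (Fact.out : p.Prime).ne_zero
  have hr0 : (0 : ℝ) ≤ ‖(p : L)‖ := norm_nonneg _
  have hrpos : (0 : ℝ) < ‖(p : L)‖ := norm_pos_iff.2 hp0
  have hseq : Tendsto (fun n : ℕ => (p : L) ^ n) atTop (𝓝[≠] 0) := by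
    rw [tendsto_nhdsWithin_iff]
    exact ⟨tendsto_pow_atTop_nhds_zero_of_norm_lt_one hp,
      Eventually.of_forall fun n => pow_ne_zero n hp0⟩
  have hseq0 : Tendsto (fun n : ℕ => (p : L) ^ n) atTop (𝓝 0) :=
    tendsto_pow_atTop_nhds_zero_of_norm_lt_one hp
  have d1 : ∀ m, HasDerivAt (fun t : L => ev C 0 t m) (evt C 0 0 m) 0 := by
    intro m
    have := hasDeriv hr0 hp hF 1 m
    simpa using this
  have d2 : ∀ m, HasDerivAt (fun t : L => ev C 0 (-t) m) (-evt C 0 0 m) 0 := by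
    intro m
    have := hasDeriv hr0 hp hF (-1) m
    simpa using this
  have d3 : ∀ i, HasDerivAt (fun t : L => eval (ev C 0 t) (Ψ i))
      (∑ m, eval (ev C 0 0) (pderiv m (Ψ i)) * evt C 0 0 m) 0 := fun i =>
    deriv_eval (fun t => ev C 0 t) (fun m => evt C 0 0 m) 0 d1 (Ψ i)
  have hd : HasDerivAt (fun t : L => eval (ev C 0 t) (Ψ i) * ev C 0 (-t) j -
      eval (ev C 0 t) (Ψ j) * ev C 0 (-t) i)
      ((∑ m, eval (ev C 0 0) (pderiv m (Ψ i)) * evt C 0 0 m) * ev C 0 0 j +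
        (l * ev C 0 0 i) * (-evt C 0 0 j) -
        ((∑ m, eval (ev C 0 0) (pderiv m (Ψ j)) * evt C 0 0 m) * ev C 0 0 i +
        (l * ev C 0 0 j) * (-evt C 0 0 i))) 0 := by
    have h1 := ((d3 i).mul (d2 j)).sub ((d3 j).mul (d2 i))
    simp only [neg_zero, hΨ0] at h1
    exact h1
  -- the values at zero
  obtain ⟨w0, hw0, hw0e, hw0R⟩ := hw 0
  have hw0e' : ∀ m, (w0 m : L) = ev C 0 0 m := by
    intro m
    have := hw0e m
    simpa using this
  have hw0R' : Rp F 0 z w0 := by simpa using hw0R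
  obtain ⟨i0, hi0⟩ := id hw0
  have hP0 : ev C 0 0 i0 ≠ 0 := by
    intro h
    have h1 : ‖(w0 i0 : L)‖ = 1 := hi0
    rw [hw0e' i0, h, norm_zero] at h1
    exact zero_ne_one h1
  have hne : ∀ᶠ e : ℕ in atTop, eval (ev C 0 ((p : L) ^ e)) (Ψ i0) ≠ 0 := by
    have h1 : Tendsto (fun e : ℕ => eval (ev C 0 ((p : L) ^ e)) (Ψ i0)) atTop
        (𝓝 (eval (ev C 0 0) (Ψ i0))) := ((d3 i0).continuousAt.tendsto).comp hseq0
    refine h1.eventually_ne ?_
    rw [hΨ0]
    exact mul_ne_zero hl hP0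
  have hBd : ∀ᶠ e : ℕ in atTop, ∀ m, ‖eval (ev C 0 ((p : L) ^ e)) (Ψ m)‖ ≤
      1 + ∑ m, ‖eval (ev C 0 0) (Ψ m)‖ := by
    rw [eventually_all]
    intro m
    have h1 : Tendsto (fun e : ℕ => ‖eval (ev C 0 ((p : L) ^ e)) (Ψ m)‖) atTop
        (𝓝 ‖eval (ev C 0 0) (Ψ m)‖) := (((d3 m).continuousAt.tendsto).comp hseq0).norm
    have h2 : ‖eval (ev C 0 0) (Ψ m)‖ < 1 + ∑ m, ‖eval (ev C 0 0) (Ψ m)‖ := by
      have : ‖eval (ev C 0 0) (Ψ m)‖ ≤ ∑ m, ‖eval (ev C 0 0) (Ψ m)‖ :=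
        Finset.single_le_sum (f := fun m => ‖eval (ev C 0 0) (Ψ m)‖) (fun _ _ => norm_nonneg _)
          (Finset.mem_univ m)
      linarith
    exact (h1.eventually_lt_const h2).mono fun _ h => h.le
  obtain ⟨M, hM⟩ : ∃ M : ℝ, M = 1 + ∑ m, ‖eval (ev C 0 0) (Ψ m)‖ := ⟨_, rfl⟩
  rw [← hM] at hBd
  have hM0 : 0 ≤ M := by
    rw [hM]
    have : 0 ≤ ∑ m, ‖eval (ev C 0 0) (Ψ m)‖ := Finset.sum_nonneg fun _ _ => norm_nonneg _
    linarith
  -- the main estimate
  have main : ∀ᶠ e : ℕ in atTop, ‖eval (ev C 0 ((p : L) ^ e)) (Ψ i) * ev C 0 (-(p : L) ^ e) j -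
      eval (ev C 0 ((p : L) ^ e)) (Ψ j) * ev C 0 (-(p : L) ^ e) i‖ ≤
      3 * M * ‖(p : L)‖ ^ (2 * e) := by
    filter_upwards [hne, hBd, eventually_ge_atTop 1] with e h1 h2 he
    obtain ⟨n, hn⟩ : ∃ n : ℕ, n = p ^ e := ⟨_, rfl⟩
    obtain ⟨T, hT⟩ : ∃ T : ℕ, T = p ^ (2 * e) := ⟨_, rfl⟩
    have hnT : n ≤ T := by
      rw [hn, hT]
      exact Nat.pow_le_pow_right (Fact.out : p.Prime).pos (by omega)
    obtain ⟨N, hN⟩ : ∃ N : ℕ, T = N + n := ⟨T - n, by omega⟩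
    have hnL : (n : L) = (p : L) ^ e := by rw [hn]; push_cast; rfl
    have hTL : (T : L) = (p : L) ^ (2 * e) := by rw [hT]; push_cast; rfl
    have hNL : (N : L) = (p : L) ^ (2 * e) - (p : L) ^ e := by
      rw [← hTL, ← hnL, hN]
      push_cast
      ring
    obtain ⟨wN, hwN, hwNe, hwNR⟩ := hw N
    obtain ⟨wT, hwT, hwTe, hwTR⟩ := hw T
    obtain ⟨u, hu, huQ, ⟨c, hc, huc⟩, huR⟩ := hΨ n ⟨i0, by rw [hnL]; exact h1⟩
    rw [hnL] at huc
    rw [hTL] at hwTe
    rw [hNL] at hwNe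
    rw [hN, Nat.mul_add] at hwTR
    obtain ⟨v1, hv1, hv1'⟩ := (Rp.add hG hzQ hz (k * N) (k * n)).1 hwTR
    obtain ⟨hv1Q, hv1p⟩ := Rp.mem hG hzQ hz hv1
    have c1 : Cl 0 v1 wN :=
      Rp.contr hG le_rfl zero_lt_one hzQ hz hzQ hz (Cl.self le_rfl z) hv1 hwNR
    obtain ⟨δ, hδ⟩ : ∃ δ : ℝ, δ = ‖(p : L)‖ ^ (2 * e) := ⟨_, rfl⟩
    have hδ0 : 0 ≤ δ := by rw [hδ]; positivity
    have hδ1 : δ < 1 := by
      rw [hδ]
      exact pow_lt_one₀ hr0 hp (by omega)
    have hpT : ‖(p : L) ^ (2 * e)‖ = δ := by rw [norm_pow, hδ]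
    have hpe : ‖(p : L) ^ e‖ ≤ 1 := by
      rw [norm_pow]
      exact pow_le_one₀ hr0 hp.le
    have c2 : Cl δ z wT := by
      refine (hw0R'.2.mono hδ0).trans hδ1 hz hw0 hwT (Cl.of_near (c := 1) fun m => ?_)
      unfold nm
      push_cast
      rw [hwTe, hw0e' m, one_mul]
      have := lip1 hr0 hp hF ((p : L) ^ (2 * e)) 0 (by rw [hpT]; exact hδ1.le) (by simp) m
      rw [sub_zero, hpT] at this
      exact this
    have c3 : Cl δ u v1 := Rp.back hG hδ0 hδ1 huQ hu hv1Q hv1p huR hv1' c2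
    have c4 : Cl δ u wN := c3.trans hδ1 hu hv1p hwN (c1.mono hδ0)
    have c5 := c4 i j
    unfold nm at c5
    push_cast at c5
    rw [huc, huc, hwNe, hwNe] at c5
    obtain ⟨a, ha⟩ : ∃ a : L, a = eval (ev C 0 ((p : L) ^ e)) (Ψ i) := ⟨_, rfl⟩
    obtain ⟨b, hb⟩ : ∃ b : L, b = eval (ev C 0 ((p : L) ^ e)) (Ψ j) := ⟨_, rfl⟩
    obtain ⟨x, hx⟩ : ∃ x : L, x = ev C 0 ((p : L) ^ (2 * e) - (p : L) ^ e) j := ⟨_, rfl⟩
    obtain ⟨y, hy⟩ : ∃ y : L, y = ev C 0 ((p : L) ^ (2 * e) - (p : L) ^ e) i := ⟨_, rfl⟩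
    obtain ⟨x', hx'⟩ : ∃ x' : L, x' = ev C 0 (-(p : L) ^ e) j := ⟨_, rfl⟩
    obtain ⟨y', hy'⟩ : ∃ y' : L, y' = ev C 0 (-(p : L) ^ e) i := ⟨_, rfl⟩
    have hsub : ‖(p : L) ^ (2 * e) - (p : L) ^ e‖ ≤ 1 := by
      rw [sub_eq_add_neg]
      refine (IsUltrametricDist.norm_add_le_max _ _).trans (max_le ?_ ?_)
      · rw [hpT]; exact hδ1.le
      · rw [norm_neg]; exact hpe
    have hnear : ∀ m, ‖ev C 0 ((p : L) ^ (2 * e) - (p : L) ^ e) m - ev C 0 (-(p : L) ^ e) m‖ ≤ δ := by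
      intro m
      have := lip1 hr0 hp hF ((p : L) ^ (2 * e) - (p : L) ^ e) (-(p : L) ^ e) hsub
        (by rw [norm_neg]; exact hpe) m
      have e1 : (p : L) ^ (2 * e) - (p : L) ^ e - -(p : L) ^ e = (p : L) ^ (2 * e) := by ring
      rw [e1, hpT] at this
      exact this
    have n1 := hnear j
    have n2 := hnear i
    rw [← hx, ← hx'] at n1
    rw [← hy, ← hy'] at n2
    have m1 := h2 i
    have m2 := h2 j
    rw [← ha] at m1
    rw [← hb] at m2
    rw [← ha, ← hb, ← hx, ← hy] at c5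
    -- the constant
    obtain ⟨i1, hi1⟩ := hu
    have hi1' : ‖(u i1 : L)‖ = 1 := hi1
    rw [huc, norm_mul] at hi1'
    have m3 := h2 i1
    have hcpos : 0 < ‖c‖ := norm_pos_iff.2 hc
    have hcM : 1 ≤ ‖c‖ * M := by
      rw [← hi1']
      exact mul_le_mul_of_nonneg_left m3 hcpos.le
    have c6 : ‖a * x - b * y‖ ≤ M * δ := by
      have e1 : c * a * x - c * b * y = c * (a * x - b * y) := by ring
      rw [e1, norm_mul] at c5
      have h3 : ‖a * x - b * y‖ ≤ ‖c‖ * M * ‖a * x - b * y‖ :=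
        le_mul_of_one_le_left (norm_nonneg _) hcM
      calc ‖a * x - b * y‖ ≤ ‖c‖ * M * ‖a * x - b * y‖ := h3
        _ = M * (‖c‖ * ‖a * x - b * y‖) := by ring
        _ ≤ M * δ := mul_le_mul_of_nonneg_left c5 hM0
    rw [← ha, ← hb, ← hx', ← hy', ← hδ]
    have e2 : a * x' - b * y' = (a * x - b * y) + (-(a * (x - x')) + b * (y - y')) := by ring
    rw [e2]
    have h4 : ‖a * (x - x')‖ ≤ M * δ := by
      rw [norm_mul]
      exact mul_le_mul m1 n1 (norm_nonneg _) hM0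
    have h5 : ‖b * (y - y')‖ ≤ M * δ := by
      rw [norm_mul]
      exact mul_le_mul m2 n2 (norm_nonneg _) hM0
    calc ‖(a * x - b * y) + (-(a * (x - x')) + b * (y - y'))‖
        ≤ ‖a * x - b * y‖ + ‖-(a * (x - x')) + b * (y - y')‖ := norm_add_le _ _
      _ ≤ ‖a * x - b * y‖ + (‖-(a * (x - x'))‖ + ‖b * (y - y')‖) :=
          add_le_add le_rfl (norm_add_le _ _)
      _ ≤ M * δ + (M * δ + M * δ) := by
          rw [norm_neg]
          exact add_le_add c6 (add_le_add h4 h5)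
      _ = 3 * M * δ := by ring
  -- the derivative vanishes
  have hs := (hasDerivAt_iff_tendsto_slope.1 hd).comp hseq
  have hz0 : Tendsto ((slope (fun t : L => eval (ev C 0 t) (Ψ i) * ev C 0 (-t) j -
      eval (ev C 0 t) (Ψ j) * ev C 0 (-t) i) 0) ∘ (fun n : ℕ => (p : L) ^ n)) atTop (𝓝 0) := by
    have h1 : Tendsto (fun e : ℕ => 3 * M * ‖(p : L)‖ ^ e) atTop (𝓝 0) := by
      have := (tendsto_pow_atTop_nhds_zero_of_lt_one hr0 hp).const_mul (3 * M)
      rwa [mul_zero] at this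
    refine squeeze_zero_norm' ?_ h1
    filter_upwards [main] with e he
    simp only [Function.comp_apply, slope_def_field, neg_zero, hΨ0]
    have e0 : l * ev C 0 0 i * ev C 0 0 j - l * ev C 0 0 j * ev C 0 0 i = 0 := by ring
    rw [e0, sub_zero, sub_zero, norm_div, norm_pow, div_le_iff₀ (by positivity)]
    refine he.trans (le_of_eq ?_)
    rw [two_mul, pow_add]
    ring
  have h0 := tendsto_nhds_unique hs hz0
  linear_combination -h0

end Pool.Agent.K1H33.RA
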